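import Mathlib
import Pool.Agent.Helper115_ME.VV.AbsFinal

/-!
# MP_ae3a4d_gt: which densities become admissible after adding a multiple of the mean width map

Let `n ≥ 3` and let `g` be a Borel function on `(-1, 1)` such that `v ↦ g(⟨e, v⟩)` is integrable on the sphere and
`g⁺(t) (1 - t²)^{(n-4)/2}` is integrable on `(-1, 1)` (for instance `g` bounded above).
There is a constant `c` such that the zonal distribution with density `v ↦ g(⟨e, v⟩) + c` generates an admissible map if and only if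

  `g(t) ≥ - C (1 - t²)^{-(n-2)/2}` for almost all `t`, with some constant `C`, and
  `g(t) (1 - t²)^{(n-4)/2}` is integrable on `(-1, 1)`.

(A constant density generates `K ↦ c w(K) B`, `w` the mean width, `B` the ball.)
-/

set_option autoImplicit false

namespace Pool.Agent.Results.MP_ae3a4d_gt.AbsorptionCriterion

open MeasureTheory Pool.Agent.Helper115_ME

theorem bound_iff {n : ℕ} (hn : 3 ≤ n) (g : ℝ → ℝ) :
    (∃ C : ℝ, ∀ᵐ t : ℝ, t ∈ Set.Ioo (-1 : ℝ) 1 → -(C * ((√(1 - t ^ 2)) ^ (n - 2))⁻¹) ≤ g t) ↔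
      ∃ C : ℝ, ∀ᵐ t : ℝ, t ∈ Set.Ioo (-1 : ℝ) 1 → -(C * (1 - t ^ 2) ^ (-(((n : ℝ) - 2) / 2))) ≤ g t := by
  have h : ∀ t ∈ Set.Ioo (-1 : ℝ) 1, ((√(1 - t ^ 2)) ^ (n - 2))⁻¹ = (1 - t ^ 2) ^ (-(((n : ℝ) - 2) / 2)) := by
    intro t ht
    have h1 : 0 < 1 - t ^ 2 := by nlinarith [ht.1, ht.2]
    have h2 : ((n - 2 : ℕ) : ℝ) = (n : ℝ) - 2 := by
      rw [Nat.cast_sub (by omega : 2 ≤ n)]; norm_num
    rw [Real.rpow_neg h1.le]
    congr 1
    rw [Real.sqrt_eq_rpow, ← Real.rpow_natCast ((1 - t ^ 2) ^ (1 / 2 : ℝ)) (n - 2), ← Real.rpow_mul h1.le, h2]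
    congr 1
    ring
  constructor
  · rintro ⟨C, hC⟩
    refine ⟨C, hC.mono fun t ht hmem => ?_⟩
    rw [← h t hmem]
    exact ht hmem
  · rintro ⟨C, hC⟩
    refine ⟨C, hC.mono fun t ht hmem => ?_⟩
    rw [h t hmem]
    exact ht hmem

theorem result (n : ℕ) (hn : 3 ≤ n) (e : Sph n) (g : ℝ → ℝ) (hg : Measurable g)
    (hint : Integrable (fun v : Sph n => g (inner ℝ (e : E n) (v : E n))) (sig n))
    (hpos : IntegrableOn (fun t : ℝ => max (g t) 0 * (1 - t ^ 2) ^ (((n : ℝ) - 4) / 2)) (Set.Ioo (-1) 1)) :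
    (∃ (c : ℝ) (μ : Distr n) (T : Body n → Body n),
        HasDensity e (fun t => g t + c) μ ∧ Admissible T ∧ Generates e μ T) ↔
      ((∃ C : ℝ, ∀ᵐ t : ℝ, t ∈ Set.Ioo (-1 : ℝ) 1 → -(C * (1 - t ^ 2) ^ (-(((n : ℝ) - 2) / 2))) ≤ g t) ∧
        IntegrableOn (fun t : ℝ => g t * (1 - t ^ 2) ^ (((n : ℝ) - 4) / 2)) (Set.Ioo (-1) 1)) := by
  rw [← bound_iff hn g]
  constructor
  · rintro ⟨c, μ, T, hμ, -, hT⟩
    exact absorb_nec hn e hg hint hpos hμ hT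
  · rintro ⟨⟨C, hC⟩, hgi⟩
    obtain ⟨c, μ, hμ, T, hT1, hT2⟩ := absorb_suff hn e hg hint hC hgi
    exact ⟨c, μ, T, hμ, hT1, hT2⟩

end Pool.Agent.Results.MP_ae3a4d_gt.AbsorptionCriterion
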