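import Mathlib
import Pool.Agent.Helper115_ME.UU.SumCase

/-!
# MP_ae3a4d_gt: the exact condition for concave plus even unimodal densities

Let `n ≥ 3` and let `μ` be the zonal distribution with integrable density `v ↦ g(⟨e, v⟩)` with respect to the surface measure of
`S^{n-1}`, where on `(-1, 1)` we have `g = g₁ + g₂` with `g₁` concave and `g₂` even and nonincreasing on `[0, 1)`
(both possibly unbounded below at the end points).
Then `μ` generates an admissible map `T` (so that `h_{TK}(u) = ∫ h_K(v) g(⟨u, v⟩) dv`) if and only if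

  `∫_{-1}^1 g(t) t² (1 - t²)^{(n-4)/2} dt`   converges and is `≥ 0`.

The condition says that `T` of a segment is a convex body. In particular (`g₁ = 0`) it decides all even densities which are
nonincreasing on `[0, 1)`, and (`g₂ = 0`) all concave densities.
-/

set_option autoImplicit false

namespace Pool.Agent.Results.MP_ae3a4d_gt.DensityCriterion

open MeasureTheory Pool.Agent.Helper115_ME

theorem result (n : ℕ) (hn : 3 ≤ n) (e : Sph n) (g g₁ g₂ : ℝ → ℝ)
    (hconc : ConcaveOn ℝ (Set.Ioo (-1) 1) g₁)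
    (heven : ∀ t ∈ Set.Ioo (-1 : ℝ) 1, g₂ (-t) = g₂ t) (hanti : AntitoneOn g₂ (Set.Ico 0 1))
    (hg : ∀ t ∈ Set.Ioo (-1 : ℝ) 1, g t = g₁ t + g₂ t)
    (hint : Integrable (fun v : Sph n => g (inner ℝ (e : E n) (v : E n))) (sig n))
    (μ : Distr n) (hμ : HasDensity e g μ) :
    (∃ T : Body n → Body n, Admissible T ∧ Generates e μ T) ↔
      (IntegrableOn (fun t : ℝ => g t * t ^ 2 * (1 - t ^ 2) ^ (((n : ℝ) - 4) / 2)) (Set.Ioo (-1) 1) ∧
        0 ≤ ∫ t in Set.Ioo (-1 : ℝ) 1, g t * t ^ 2 * (1 - t ^ 2) ^ (((n : ℝ) - 4) / 2)) :=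
  sum_criterion hn e g g₁ g₂ hconc
    ⟨heven, fun _ _ hs hst ht => hanti ⟨hs, hst.trans_lt ht⟩ ⟨hs.trans hst, ht⟩ hst⟩ hg hint μ hμ

end Pool.Agent.Results.MP_ae3a4d_gt.DensityCriterion
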