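import Mathlib
import Pool.Agent.Helper115_ME.DualCond

/-!
# MP_ae3a4d_gt: which zonal distributions generate an admissible map

`n ≥ 3`, `e` a point of the unit sphere, `w` a unit vector orthogonal to `e`, `ρ_θ = planeRot h θ` the rotation of
`ℝⁿ` by the angle `θ` in the plane of `e, w` (`e ↦ cos θ e + sin θ w`). For `f ∈ C^∞(S^{n-1})` and an orthonormal pair
`p = (u, v)`, `Rc f p = f(u) + (d/ds)² f(cos s u + sin s v)` at `s = 0`: for `f = h_K` this is the radius of curvature at
`u` of the projection of `K` to the plane spanned by `u, v`.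

For every zonal distribution `μ` with pole `e` the following are equivalent.

1. `μ` generates an admissible map `T` of the convex bodies of `ℝⁿ`.
2. `μ(h_K) + (d/dθ)² μ(h_K ∘ ρ_θ) ≥ 0` at `θ = 0`, for every convex body `K` with `C^∞` support function.
3. There is a finite (positive) Borel measure `ν` on orthonormal pairs such that
   `μ(f) + (d/dθ)² μ(f ∘ ρ_θ) = ∫ Rc f dν` for all `f ∈ C^∞(S^{n-1})`.

The left side in 3, applied to `f = h_K ∘ ϑ` for a rotation `ϑ`, is the radius of curvature `Rc h_{TK} (ϑ e, ϑ w)`, so 3 says that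
`T` acts on the radii of curvature by one positive measure on pairs: `Rc h_{TK} (ϑ e, ϑ w) = ∫ Rc h_K (ϑ u, ϑ v) dν(u, v)`.
There is no continuity, measure or regularity assumption on `μ` beyond its being a zonal distribution.
(In the plane, where an orthonormal pair is given by a point of the circle and a sign, condition 3 says that `μ` is the sum of a
positive measure and of a linear function, which is Schneider's theorem.)
-/

set_option autoImplicit false

namespace Pool.Agent.Results.MP_ae3a4d_gt.ExactCondition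

open MeasureTheory Pool.Agent.Helper115_ME

theorem result (n : ℕ) (hn : 3 ≤ n) (e : Sph n) (w : E n) (h : Orthonormal ℝ ![(e : E n), w])
    (μ : Distr n) (hμ : IsZonalDistribution (e : E n) μ) :
    List.TFAE [
      ∃ T : Body n → Body n, Admissible T ∧ Generates e μ T,
      ∀ (K : Body n) (hK : IsSmooth (hS K)), 0 ≤ curv h μ (suppS K hK),
      ∃ ν : Measure (E n × E n), IsFiniteMeasure ν ∧ (∀ᵐ p ∂ν, IsPair p) ∧
        ∀ f : SmoothFun n, curv h μ f = ∫ p, Rc f.1 p ∂ν] := by
  have hc : IsContFun μ := hμ.continuous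
  have hz : IsZonalFun (e : E n) μ := hμ.zonal
  tfae_have 1 → 2 := by
    rintro ⟨T, -, hT⟩ K hK
    exact pos_of_generates hn e h hc hT ⟨hS K, hK⟩ fun u v huv => Rc_nonneg_of_body hK huv
  have key : (∀ (K : Body n) (hK : IsSmooth (hS K)), 0 ≤ curv h μ (suppS K hK)) →
      ∀ f : SmoothFun n, (∀ u v : E n, Orthonormal ℝ ![u, v] → 0 ≤ Rc f.1 (u, v)) → 0 ≤ ell h hc f := by
    intro H f hf
    obtain ⟨K, hK⟩ := exists_body_of_Rc (by omega) f.2 hf
    have hKs : IsSmooth (hS K) := by rw [hK]; exact f.2
    have hfK : f = suppS K hKs := Subtype.ext hK.symm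
    rw [hfK]
    exact H K hKs
  tfae_have 2 → 3 := by
    intro H
    exact exists_measure h hc (key H)
  tfae_have 3 → 1 := by
    rintro ⟨ν, -, hν, hνf⟩
    refine generates_of_pos hn e h hc hz fun f hf => ?_
    have h1 : ell h hc f = ∫ p, Rc f.1 p ∂ν := hνf f
    rw [h1]
    exact pos_of_measure hν f hf
  tfae_finish

end Pool.Agent.Results.MP_ae3a4d_gt.ExactCondition
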