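import Mathlib
import Pool.Agent.Helper115_ME.VV.DFinal

/-!
# MP_ae3a4d_gt: an explicit necessary condition for every generating measure

Let `n ≥ 3` and let `μ = m₁ - m₂` be a zonal signed measure with pole `e` (`m₁, m₂` finite positive Borel measures on the sphere;
they need not be zonal themselves). If `μ` generates an admissible map then there are real numbers `c₁, c₂` with
`c₁ + c₂ = μ({⟨e, v⟩ = 0})` such that, with `Φ_e(b) = ∫_{0 < ⟨e, v⟩ ≤ b} (1 - ⟨e, v⟩²)^(-1/2) dμ(v)`, the two functions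

  `b ↦ (1 - b²)^(-(n-2)/2) (c₁ + Φ_e(b))`   and   `b ↦ (1 - b²)^(-(n-2)/2) (c₂ + Φ_{-e}(b))`

are nondecreasing on `(0, 1)`. (Every generating distribution is a signed measure by a theorem of Dorrek, so the condition applies to all
of them.) The condition expresses that the radii of curvature at the pole of the images of bodies of revolution with axis `ℝe` are nonnegative.
For `μ = g(⟨e, v⟩) dσ` it gives `g(t) ≥ -(n-2) t (1-t²)^(-(n-2)/2) (c₁' + ∫_0^t g(x)(1-x²)^((n-4)/2) dx)` for almost all `t ∈ (0, 1)`.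
-/

set_option autoImplicit false

namespace Pool.Agent.Results.MP_ae3a4d_gt.NecessaryCondition

open MeasureTheory Pool.Agent.Helper115_ME

theorem result (n : ℕ) (hn : 3 ≤ n) (e : Sph n) (μ : Distr n) (hμ : IsZonalDistribution (e : E n) μ)
    (m₁ m₂ : Measure (Sph n)) [IsFiniteMeasure m₁] [IsFiniteMeasure m₂]
    (hm : ∀ f : SmoothFun n, val μ f = (∫ v, f.1 v ∂m₁) - ∫ v, f.1 v ∂m₂)
    (hT : ∃ T : Body n → Body n, Admissible T ∧ Generates e μ T) :
    ∃ c₁ c₂ : ℝ,
      c₁ + c₂ = m₁.real {v : Sph n | inner ℝ (e : E n) (v : E n) = (0 : ℝ)} -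
        m₂.real {v : Sph n | inner ℝ (e : E n) (v : E n) = (0 : ℝ)} ∧
      MonotoneOn (fun b : ℝ => ((√(1 - b ^ 2)) ^ (n - 2))⁻¹ *
        (c₁ + (Phi (e : E n) m₁ b - Phi (e : E n) m₂ b))) (Set.Ioo 0 1) ∧
      MonotoneOn (fun b : ℝ => ((√(1 - b ^ 2)) ^ (n - 2))⁻¹ *
        (c₂ + (Phi (-(e : E n)) m₁ b - Phi (-(e : E n)) m₂ b))) (Set.Ioo 0 1) := by
  obtain ⟨T, -, hT⟩ := hT
  exact necessary_condition hn e hμ hm hT

end Pool.Agent.Results.MP_ae3a4d_gt.NecessaryCondition
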